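import Pool.Agent.K4H10.PR.Spec

/-! Piece TRI for MP_1aae89_al: transitivity of induction. -/

namespace Pool.Agent.K4H10.PR
open scoped BigOperators Classical

/-- the extension by zero of a function on `H ≤ M ≤ G` -/
noncomputable def ext0 {G : Type} [Group G] (M : Subgroup G) (H : Subgroup M) (μ : H → ℂ) (y : G) : ℂ :=
  if h : ∃ h : y ∈ M, (⟨y, h⟩ : M) ∈ H then μ ⟨⟨y, h.1⟩, h.2⟩ else 0

theorem ext0_coe {G : Type} [Group G] (M : Subgroup G) (H : Subgroup M) (μ : H → ℂ) (y : G) (y' : M)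
    (e : (y' : G) = y) : ext0 M H μ y = if h : y' ∈ H then μ ⟨y', h⟩ else 0 := by
  subst e
  unfold ext0
  by_cases h : y' ∈ H
  · rw [dif_pos h, dif_pos ⟨y'.2, h⟩]
  · rw [dif_neg h, dif_neg]
    rintro ⟨h1, h2⟩
    exact h h2

theorem ext0_not_mem {G : Type} [Group G] (M : Subgroup G) (H : Subgroup M) (μ : H → ℂ) (y : G)
    (h : y ∉ M) : ext0 M H μ y = 0 := by
  unfold ext0
  rw [dif_neg]
  rintro ⟨h1, -⟩
  exact h h1

theorem tri : StTri := by
  intro G _ _ M H μ x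
  change ind M (ind H μ) x = (Fintype.card H : ℂ)⁻¹ * ∑ g : G, ext0 M H μ (g⁻¹ * x * g)
  have key : ∀ g : G, (if h : g⁻¹ * x * g ∈ M then ind H μ ⟨g⁻¹ * x * g, h⟩ else 0) =
      (Fintype.card H : ℂ)⁻¹ * ∑ m : M, ext0 M H μ ((g * m)⁻¹ * x * (g * m)) := by
    intro g
    have e : ∀ m : M, (g * (m : G))⁻¹ * x * (g * m) = (m : G)⁻¹ * (g⁻¹ * x * g) * m := fun m => by group
    by_cases h : g⁻¹ * x * g ∈ M
    · rw [dif_pos h]
      unfold ind
      congr 1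
      refine Finset.sum_congr rfl fun m _ => ?_
      rw [e m]
      exact (ext0_coe M H μ _ (m⁻¹ * ⟨g⁻¹ * x * g, h⟩ * m) rfl).symm
    · rw [dif_neg h, Finset.sum_eq_zero, mul_zero]
      intro m _
      refine ext0_not_mem M H μ _ fun h2 => h ?_
      rw [e m] at h2
      have h3 := M.mul_mem (M.mul_mem m.2 h2) (M.inv_mem m.2)
      have e2 : (m : G) * ((m : G)⁻¹ * (g⁻¹ * x * g) * m) * (m : G)⁻¹ = g⁻¹ * x * g := by group
      rwa [e2] at h3
  have e1 : ind M (ind H μ) x = (Fintype.card M : ℂ)⁻¹ *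
      ∑ g : G, (if h : g⁻¹ * x * g ∈ M then ind H μ ⟨g⁻¹ * x * g, h⟩ else 0) := rfl
  rw [e1, Finset.sum_congr rfl (fun g _ => key g), ← Finset.mul_sum, Finset.sum_comm]
  have e2 : ∀ m : M, ∑ g : G, ext0 M H μ ((g * m)⁻¹ * x * (g * m)) =
      ∑ g : G, ext0 M H μ (g⁻¹ * x * g) := by
    intro m
    exact Fintype.sum_equiv (Equiv.mulRight (m : G)) _ _ (fun g => rfl)
  rw [Finset.sum_congr rfl (fun m _ => e2 m), Finset.sum_const, Finset.card_univ, nsmul_eq_mul]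
  have hM : (Fintype.card M : ℂ) ≠ 0 := by
    rw [Nat.cast_ne_zero]
    exact Fintype.card_ne_zero
  field_simp

end Pool.Agent.K4H10.PR
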