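import Pool.Agent.K4H10.PR.Spec

/-! Piece INV + POW for MP_1aae89_al. -/

namespace Pool.Agent.K4H10.PR
open scoped BigOperators Classical

theorem inv : StInv := by
  intro p n hp α _ τ hτ F hF
  have : Fact p.Prime := ⟨hp⟩
  have key : ∀ z : ℤ, (p : ℤ) ∣ (((Finset.univ.filter (fun x => τ x ≠ x)).filter (fun x => F x = z)).card : ℤ) := by
    intro z
    have hst : ∀ x, (τ (τ x) ≠ τ x ∧ F (τ x) = z) ↔ (τ x ≠ x ∧ F x = z) := by
      intro x
      rw [hF x, ne_eq, ne_eq, τ.injective.eq_iff]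
    set σ : Equiv.Perm {x : α // τ x ≠ x ∧ F x = z} := τ.subtypePerm hst with hσ
    have h1 : σ ^ p ^ n = 1 := by
      rw [hσ, Equiv.Perm.subtypePerm_pow]
      ext x
      simp [hτ]
    have h2 := Equiv.Perm.card_compl_support_modEq h1
    have h3 : (Equiv.Perm.support σ)ᶜ = ∅ := by
      rw [Finset.compl_eq_empty_iff, Finset.eq_univ_iff_forall]
      intro x
      rw [Equiv.Perm.mem_support]
      intro h
      exact x.2.1 (congrArg Subtype.val h)
    rw [h3, Finset.card_empty] at h2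
    have h4 : p ∣ Fintype.card {x : α // τ x ≠ x ∧ F x = z} :=
      (Nat.modEq_zero_iff_dvd.1 h2.symm)
    rw [Fintype.card_subtype] at h4
    rw [Finset.filter_filter]
    exact_mod_cast h4
  rw [← Finset.sum_filter]
  have h5 := Finset.sum_comp (s := Finset.univ.filter (fun x => τ x ≠ x)) (fun z : ℤ => z) F
  rw [h5]
  refine Finset.dvd_sum fun z _ => ?_
  rw [nsmul_eq_mul]
  exact Dvd.dvd.mul_right (key z) z

theorem pow : StPow := by
  intro p a hp ha P _ _ hP F hF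
  have : Fact p.Prime := ⟨hp⟩
  have pmul : ∀ (lam : P →* ℂˣ) (k l : ℕ), (lam ^ k) ^ l = lam ^ (k * l) :=
    fun lam k l => (pow_mul lam k l).symm
  have padd : ∀ (lam : P →* ℂˣ) (k l : ℕ), lam ^ (k + l) = lam ^ k * lam ^ l :=
    fun lam k l => pow_add lam k l
  have pone : ∀ lam : P →* ℂˣ, lam ^ 1 = lam := fun lam => pow_one lam
  have onep : ∀ k : ℕ, (1 : P →* ℂˣ) ^ k = 1 := fun k => MonoidHom.ext fun x => by
    rw [MonoidHom.pow_apply, MonoidHom.one_apply, one_pow]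
  have mone : ∀ lam : P →* ℂˣ, lam * 1 = lam := fun lam => mul_one lam
  have meq : ∀ lam mu : P →* ℂˣ, lam * mu = lam ↔ mu = 1 := by
    intro lam mu
    constructor
    · intro h
      refine MonoidHom.ext fun x => ?_
      have h' := DFunLike.congr_fun h x
      rw [MonoidHom.mul_apply] at h'
      rw [MonoidHom.one_apply]
      exact mul_eq_left.1 h'
    · intro h
      rw [h, mone]
  obtain ⟨N, hN⟩ := IsPGroup.iff_card.1 hP
  have h1 : ∀ lam : P →* ℂˣ, lam ^ p ^ N = 1 := by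
    intro lam
    refine MonoidHom.ext fun x => ?_
    rw [MonoidHom.pow_apply, ← map_pow, ← hN, pow_card_eq_one', map_one, MonoidHom.one_apply]
  set q : ℕ := 1 + p ^ (a - 1) with hq
  have h2 : ∃ t : ℕ, q ^ p ^ N = 1 + p ^ N * t := by
    have h3 : ((p : ℤ)) ∣ (q : ℤ) - 1 := by
      rw [hq]
      push_cast
      have : (1 : ℤ) + (p : ℤ) ^ (a - 1) - 1 = (p : ℤ) ^ (a - 1) := by ring
      rw [this]
      exact dvd_pow_self _ (by omega)
    have h4 := dvd_sub_pow_of_dvd_sub h3 N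
    rw [one_pow] at h4
    have h5 : ((p : ℤ)) ^ N ∣ (q : ℤ) ^ p ^ N - 1 := (pow_dvd_pow _ (Nat.le_succ N)).trans h4
    have h6 : 1 ≤ q ^ p ^ N := Nat.one_le_pow _ _ (by omega)
    have h7 : p ^ N ∣ q ^ p ^ N - 1 := by
      have : ((q ^ p ^ N - 1 : ℕ) : ℤ) = (q : ℤ) ^ p ^ N - 1 := by
        rw [Nat.cast_sub h6]; push_cast; ring
      have h8 : ((p ^ N : ℕ) : ℤ) ∣ ((q ^ p ^ N - 1 : ℕ) : ℤ) := by
        rw [this]; push_cast; exact h5
      exact_mod_cast h8
    obtain ⟨t, ht⟩ := h7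
    exact ⟨t, by omega⟩
  obtain ⟨t, ht⟩ := h2
  have h9 : ∀ lam : P →* ℂˣ, lam ^ q ^ p ^ N = lam := by
    intro lam
    rw [ht, padd, pone, ← pmul, h1, onep, mone]
  have hpos : 0 < p ^ N := pow_pos hp.pos N
  have hq1 : q * q ^ (p ^ N - 1) = q ^ p ^ N := by
    rw [← pow_succ', Nat.sub_add_cancel hpos]
  let τ : Equiv.Perm (P →* ℂˣ) :=
    { toFun := fun lam => lam ^ q
      invFun := fun lam => lam ^ q ^ (p ^ N - 1)
      left_inv := fun lam => by
        change (lam ^ q) ^ q ^ (p ^ N - 1) = lam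
        rw [pmul, hq1, h9]
      right_inv := fun lam => by
        change (lam ^ q ^ (p ^ N - 1)) ^ q = lam
        rw [pmul, mul_comm, hq1, h9] }
  have hτ : ∀ k : ℕ, ∀ lam : P →* ℂˣ, (τ ^ k) lam = lam ^ q ^ k := by
    intro k
    induction k with
    | zero =>
      intro lam
      rw [pow_zero, pow_zero, pone]
      rfl
    | succ k ih =>
      intro lam
      rw [pow_succ, Equiv.Perm.mul_apply, ih]
      change (lam ^ q) ^ q ^ k = lam ^ q ^ (k + 1)
      rw [pmul, ← pow_succ']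
  have h10 : τ ^ p ^ N = 1 := by
    ext1 lam
    rw [hτ, h9]
    rfl
  have h11 := inv p N hp τ h10 F hF
  have h12 : ∀ lam : P →* ℂˣ, τ lam ≠ lam ↔ lam ^ p ^ (a - 1) ≠ 1 := by
    intro lam
    have : τ lam = lam * lam ^ p ^ (a - 1) := by
      change lam ^ q = _
      rw [hq, padd, pone]
    rw [this]
    exact not_congr (meq _ _)
  have h13 : ∀ lam : P →* ℂˣ, (if τ lam ≠ lam then F lam else 0) =
      if lam ^ p ^ (a - 1) ≠ 1 then F lam else 0 := fun lam => if_congr (h12 lam) rfl rfl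
  rwa [Finset.sum_congr rfl (fun lam _ => h13 lam)] at h11

end Pool.Agent.K4H10.PR
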